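import Pool.Agent.H16.ORB.C

/-!
# Row INV: the invariants under the moves
-/

open Classical Finset

namespace Pool.ORB

namespace InvAux

variable {E Nd Sg W : Type}

theorem dm_card {κ : FS E Nd} (h : Fn κ) : (dm κ).card = κ.card := by
  unfold dm
  apply Finset.card_image_of_injOn
  intro f hf g hg hfg
  exact h f hf g hg hfg

theorem fn_union {κ κ' : FS E Nd} (h : Fn κ) (h' : Fn κ') (hd : Disjoint (dm κ) (dm κ')) :
    Fn (κ ∪ κ') := by
  have hx : ∀ f ∈ κ, ∀ g ∈ κ', f.1 ≠ g.1 := by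
    intro f hf g hg e
    have h1 : f.1 ∈ dm κ := Finset.mem_image_of_mem _ hf
    have h2 : f.1 ∈ dm κ' := by
      rw [e]
      exact Finset.mem_image_of_mem _ hg
    exact (Finset.disjoint_left.mp hd) h1 h2
  intro f hf g hg e
  rcases Finset.mem_union.mp hf with hf | hf <;> rcases Finset.mem_union.mp hg with hg | hg
  · exact h f hf g hg e
  · exact absurd e (hx f hf g hg)
  · exact absurd e.symm (hx g hg f hf)
  · exact h' f hf g hg e

theorem disj_of_dm {κ κ' : FS E Nd} (hd : Disjoint (dm κ) (dm κ')) : Disjoint κ κ' := by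
  rw [Finset.disjoint_left]
  intro f hf hf'
  exact (Finset.disjoint_left.mp hd) (Finset.mem_image_of_mem _ hf) (Finset.mem_image_of_mem _ hf')

theorem Tp_pos [Fintype E] [Fintype W] [Fintype Sg] (D : Dat E Nd Sg W) : 0 < Tp D.p := by
  have := D.hp
  unfold Tp
  omega

theorem M_pos [Fintype E] [Fintype W] [Fintype Sg] (D : Dat E Nd Sg W) : 0 < D.M := by
  unfold Dat.M
  positivity

theorem sum_start [Fintype Sg] (φ : Lf E Nd Sg → ℝ) (c : ℝ) (h : ∀ s : Sg, φ (s, ∅) = c) :
    ∑ l ∈ univ.image (fun s : Sg => (s, (∅ : FS E Nd))), φ l = (Fintype.card Sg : ℝ) * c := by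
  rw [Finset.sum_image (fun x _ y _ hxy => congrArg Prod.fst hxy)]
  rw [Finset.sum_congr rfl (fun s _ => h s), Finset.sum_const, Finset.card_univ, nsmul_eq_mul]

theorem wt_empty [Fintype E] [Fintype W] [Fintype Sg] (D : Dat E Nd Sg W) : D.wt ∅ ∅ = 1 := by
  have h : Fn ((∅ : FS E Nd) ∪ ∅) := by
    intro f hf
    simp at hf
  unfold Dat.wt
  rw [if_pos h]
  simp

/-- the sum over a step is at most the sum over all leaves -/
theorem sum_stp_le [Fintype E] [Fintype W] [Fintype Sg] (hK : KIDStmt) (D : Dat E Nd Sg W) (σ : Bool) (κ : FS E Nd) (t : Sg)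
    (F : Finset (Lf E Nd Sg)) (φ : Lf E Nd Sg → ℝ) (h0 : ∀ l, 0 ≤ φ l)
    (hc : ∀ l ∈ F, ∀ l' ∈ D.kids σ κ t l, φ l' ≤ 1 / (2 * (D.p : ℝ)) * φ l) :
    ∑ l ∈ D.stp σ κ t F, φ l ≤ ∑ l ∈ F, φ l := by
  obtain ⟨_, _, _, h4⟩ := hK D σ κ t
  have hp : (0 : ℝ) < D.p := by exact_mod_cast D.hp
  have h5 := h4 F φ (1 / (2 * (D.p : ℝ))) (by positivity) h0
    (fun l hl _ _ l' hl' => hc l hl l' hl')
  have e1 : 2 * (D.p : ℝ) * (1 / (2 * (D.p : ℝ))) = 1 := by field_simp
  rw [e1, one_mul] at h5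
  refine le_trans h5 ?_
  rw [← Finset.sum_union]
  · apply Finset.sum_le_sum_of_subset_of_nonneg
    · intro l hl
      rcases Finset.mem_union.mp hl with hl | hl
      · exact (Finset.mem_filter.mp hl).1
      · exact (Finset.mem_filter.mp hl).1
    · intro l _ _
      exact h0 l
  · rw [Finset.disjoint_left]
    intro l hl hl'
    exact (Finset.mem_filter.mp hl).2.2 (Finset.mem_filter.mp hl').2.2

end InvAux

open InvAux

theorem inv (hA : ADDStmt) (hL : LENStmt) (hK : KIDStmt) (hC : CHLStmt) (hN : CLNStmt)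
    (hG : GRWStmt) : INVStmt := by
  intro E Nd Sg W _ _ _ D
  have hT : (0 : ℝ) < Tp D.p := by exact_mod_cast Tp_pos D
  have hM := M_pos D
  have hp : (0 : ℝ) < D.p := by exact_mod_cast D.hp
  have hS : (Fintype.card Sg : ℝ) ≤ 2 ^ D.p := by exact_mod_cast D.hS
  refine ⟨?_, ?_, ?_⟩
  · -- start
    refine ⟨?_, ?_, ?_, ?_⟩
    · intro f hf
      exact absurd hf (Finset.notMem_empty _)
    · have e1 : D.Psi (s0 E Nd Sg) = 2 * (Fintype.card Sg : ℝ) := by
        unfold Dat.Psi s0
        have e2 : ∀ σ : Bool, ∑ l ∈ univ.image (fun s : Sg => (s, (∅ : FS E Nd))),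
            D.wt ∅ l.2 = (Fintype.card Sg : ℝ) * 1 := by
          intro _
          exact sum_start (fun l => D.wt ∅ l.2) 1 (fun s => wt_empty D)
        rw [Finset.sum_congr rfl (fun σ _ => e2 σ), Finset.sum_const, Finset.card_univ,
          Fintype.card_bool, nsmul_eq_mul]
        push_cast
        ring
      rw [e1]
      have e3 : D.M - (Tp D.p : ℝ) * (D.M / (2 * (Tp D.p : ℝ))) = D.M / 2 := by
        field_simp
        ring
      rw [e3]
      have e4 : D.M = 4 * 2 ^ D.p := by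
        unfold Dat.M
        rw [pow_add]
        ring
      rw [e4]
      linarith
    · intro σ l hl
      obtain ⟨s, _, rfl⟩ := Finset.mem_image.mp hl
      simp
    · intro σ
      have e1 := sum_start (E := E) (Nd := Nd) (Sg := Sg)
        (fun l => (1 / (2 * (D.p : ℝ))) ^ l.2.card) 1 (fun s => by simp)
      have e2 : ∑ l ∈ (s0 E Nd Sg).F σ, (1 / (2 * (D.p : ℝ))) ^ l.2.card =
          (Fintype.card Sg : ℝ) * 1 := e1
      rw [e2, mul_one]
      exact hS
  · -- main move
    intro s t σ l hI hOK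
    obtain ⟨hl, hfn, hnh⟩ := hOK
    have hPM : D.Psi s ≤ D.M := by
      have h1 := hI.psi
      have h2 : 0 ≤ ((t + 1 : ℕ) : ℝ) * (D.M / (2 * (Tp D.p : ℝ))) := by positivity
      linarith
    have hcard : l.2.card ≤ Hp D.p := hL D s (!σ) l hPM hl hfn hnh
    obtain ⟨_, hkid2, hkid3, _⟩ := hK D σ (s.ρ ∪ l.2) l.1
    refine ⟨hfn, ?_, ?_, ?_⟩
    · have h1 := (hA D s l.2 hfn).2 hnh
      have h2 := hG D (l.2 \ s.ρ).card (le_trans (Finset.card_le_card Finset.sdiff_subset) hcard)
      have h3 : D.Psi (D.mainSt s σ l) ≤ D.Psi ⟨s.ρ ∪ l.2, s.F⟩ := by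
        unfold Dat.Psi Dat.mainSt
        apply Finset.sum_le_sum
        intro τ _
        dsimp only
        by_cases hτ : τ = σ
        · rw [if_pos hτ, hτ]
          exact hC D σ (s.ρ ∪ l.2) l.1 (s.F σ)
        · rw [if_neg hτ]
      have h4 := hI.psi
      have h5 : ((1 + D.ε) ^ (l.2 \ s.ρ).card - 1) * D.M ≤ 1 / (2 * (Tp D.p : ℝ)) * D.M :=
        mul_le_mul_of_nonneg_right h2 hM.le
      have h6 : 1 / (2 * (Tp D.p : ℝ)) * D.M = D.M / (2 * (Tp D.p : ℝ)) := by ring
      push_cast at h4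
      rw [add_mul, one_mul] at h4
      linarith
    · intro τ l' hl'
      have hl'' : l' ∈ (if τ = σ then D.stp σ (s.ρ ∪ l.2) l.1 (s.F σ) else s.F τ) := hl'
      by_cases hτ : τ = σ
      · rw [if_pos hτ] at hl''
        unfold Dat.stp at hl''
        obtain ⟨l0, hl0, h1⟩ := Finset.mem_biUnion.mp hl''
        have h2 := hI.len σ l0 hl0
        by_cases hf : Fn (s.ρ ∪ l.2 ∪ l0.2)
        · rw [if_pos hf] at h1
          by_cases hch : D.chal σ l0.1 l.1 (ans (s.ρ ∪ l.2 ∪ l0.2)) = true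
          · rw [if_pos hch] at h1
            have h3 := (hkid3 l0 l' h1).2.2
            omega
          · rw [if_neg hch] at h1
            rw [Finset.mem_singleton] at h1
            rw [h1]
            omega
        · rw [if_neg hf] at h1
          exact absurd h1 (Finset.notMem_empty _)
      · rw [if_neg hτ] at hl''
        have h2 := hI.len τ l' hl''
        omega
    · intro τ
      have e0 : (D.mainSt s σ l).F τ =
          (if τ = σ then D.stp σ (s.ρ ∪ l.2) l.1 (s.F σ) else s.F τ) := rfl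
      rw [e0]
      by_cases hτ : τ = σ
      · rw [if_pos hτ]
        refine le_trans (sum_stp_le hK D σ (s.ρ ∪ l.2) l.1 (s.F σ)
          (fun l => (1 / (2 * (D.p : ℝ))) ^ l.2.card) (fun l => by positivity) ?_) (hI.num σ)
        intro l0 _ l' hl'
        have h3 := (hkid3 l0 l' hl').2.2
        rw [h3, pow_succ]
        exact le_of_eq (mul_comm _ _)
      · rw [if_neg hτ]
        exact hI.num τ
  · -- cleaning
    intro s t g a hI hH hV
    obtain ⟨hne, hfg, hdis, _⟩ := hH
    have hex : ∃ G, D.CleanOK s g G := hN D s g hfg hdis (fun f hf => ⟨a f.1, hV f hf⟩)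
    have hDc : D.Dc s g = Classical.choose hex := by
      unfold Dat.Dc
      rw [dif_pos hex]
    have hOK := Classical.choose_spec hex
    rw [← hDc] at hOK
    obtain ⟨h1, h2, h3, h4⟩ := hOK
    have hdis2 : Disjoint (dm s.ρ) (dm (D.Dc s g)) := by
      rw [h1]
      exact hdis.symm
    refine ⟨⟨?_, ?_, ?_, ?_⟩, h3 a hV, ?_⟩
    · exact fn_union hI.fn h2 hdis2
    · exact le_trans h4 hI.psi
    · exact hI.len
    · exact hI.num
    · have e1 : (D.cleanSt s g).ρ = s.ρ ∪ D.Dc s g := rfl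
      rw [e1, Finset.card_union_of_disjoint (disj_of_dm hdis2), ← dm_card h2, h1, dm_card hfg]

end Pool.ORB
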