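import Pool.Agent.H16.ORB.C

/-!
# Row PRC: the process
-/

open Classical Finset

namespace Pool.ORB

namespace PrcAux

variable {E Nd Sg W : Type}

theorem Phi_nonneg [Fintype E] [Fintype W] [Fintype Sg] (D : Dat E Nd Sg W) (a : E → W)
    (s : St E Nd Sg) (σ : Bool) : 0 ≤ D.Phi a s σ := by
  unfold Dat.Phi
  exact Finset.sum_nonneg fun l _ => by positivity

theorem fn_mono {κ κ' : FS E Nd} (h : κ ⊆ κ') (hf : Fn κ') : Fn κ :=
  fun f hf' g hg e => hf f (h hf') g (h hg) e

theorem val_union {V : E → W → Finset Nd} {a : E → W} {κ κ' : FS E Nd} (h : Val V a κ)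
    (h' : Val V a κ') : Val V a (κ ∪ κ') := by
  intro f hf
  rcases Finset.mem_union.mp hf with hf | hf
  · exact h f hf
  · exact h' f hf

/-- a larger partial world and the same leaves: the potential does not grow -/
theorem Phi_mono [Fintype E] [Fintype W] [Fintype Sg] (D : Dat E Nd Sg W) (a : E → W)
    (s s' : St E Nd Sg) (σ : Bool) (hρ : s.ρ ⊆ s'.ρ) (hF : s'.F σ = s.F σ) :
    D.Phi a s' σ ≤ D.Phi a s σ := by
  unfold Dat.Phi
  rw [hF]
  apply Finset.sum_le_sum_of_subset_of_nonneg
  · intro l hl
    obtain ⟨h1, h2, h3⟩ := Finset.mem_filter.mp hl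
    exact Finset.mem_filter.mpr ⟨h1, h2, fn_mono (Finset.union_subset_union_left hρ) h3⟩
  · intro l _ _
    positivity

theorem cov_mono {Ws : Set (FS E Nd)} {Y : FS E Nd → Sg} {ρ ρ' : FS E Nd}
    {F : Finset (Lf E Nd Sg)} (hρ : ρ ⊆ ρ') (h : Cov Ws Y ρ F) : Cov Ws Y ρ' F :=
  fun U hU hρU => h U hU (hρ.trans hρU)

end PrcAux

open PrcAux

theorem prc (hL : LENStmt) (hI : INVStmt) (hC : CVSStmt) (hP : PHIStmt) (hW : LOWStmt)
    (hE : ENDStmt) : PRCStmt := by
  intro E Nd Sg W _ _ _ D a Ws Y h1 h2 h3
  obtain ⟨_, hI2, hI3⟩ := hI D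
  intro t
  induction t with
  | zero =>
    intro n
    induction n using Nat.strong_induction_on with
    | _ n ihn =>
      intro s hinv hval hcard hcov hphi
      rcases Nat.eq_zero_or_pos n with rfl | hn
      · exact Dat.Cont.zero s 0 hval
      by_cases hh : ∃ g, D.Heavy s g ∧ Val D.V a g
      · obtain ⟨g, hg, hvg⟩ := hh
        obtain ⟨i1, i2, i3⟩ := hI3 s 0 g a hinv hg hvg
        have hval' : Val D.V a (D.cleanSt s g).ρ := val_union hval i2
        have hgc : 0 < g.card := Finset.card_pos.mpr hg.1
        refine Dat.Cont.clean s 0 n g hval hg hvg ?_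
        by_cases hgn : n ≤ g.card
        · rw [Nat.sub_eq_zero_of_le hgn]
          exact Dat.Cont.zero _ 0 hval'
        · refine ihn (n - g.card) (by omega) (D.cleanSt s g) i1 hval' (by rw [i3]; omega) ?_ ?_
          · intro σ
            exact cov_mono Finset.subset_union_left (hcov σ)
          · refine le_trans (mul_le_mul (Phi_mono D a s (D.cleanSt s g) true
              Finset.subset_union_left rfl) (Phi_mono D a s (D.cleanSt s g) false
              Finset.subset_union_left rfl) (Phi_nonneg D a _ _) (Phi_nonneg D a _ _)) hphi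
      · exfalso
        have hPM : D.Psi s ≤ D.M := by
          have := hinv.psi
          simpa using this
        have hlen : ∀ σ, ∀ l ∈ s.F σ, Val D.V a l.2 → Fn (s.ρ ∪ l.2) → l.2.card ≤ Hp D.p := by
          intro σ l hl hvl hfl
          refine hL D s σ l hPM hl hfl ?_
          intro g hg hgh
          exact hh ⟨g, hgh, fun f hf => hvl f (Finset.sdiff_subset (hg hf))⟩
        have hlow : ∀ σ, (1 / (8 * (D.p : ℝ))) ^ Hp D.p ≤ D.Phi a s σ := by
          intro σ
          obtain ⟨U, hU, hρU⟩ := h3 σ s.ρ hinv.fn hval (by omega)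
          exact hW D a s σ (Ws σ) (Y σ) U (hcov σ) hU hρU (h1 σ U hU).1 (h1 σ U hU).2 (hlen σ)
        have e1 := hE D.p D.hp
        have e2 : (1 / (8 * (D.p : ℝ))) ^ Hp D.p * (1 / (8 * (D.p : ℝ))) ^ Hp D.p ≤
            D.Phi a s true * D.Phi a s false :=
          mul_le_mul (hlow true) (hlow false) (by positivity) (Phi_nonneg D a _ _)
        rw [pow_zero, mul_one] at hphi
        linarith
  | succ t iht =>
    intro n
    induction n using Nat.strong_induction_on with
    | _ n ihn =>
      intro s hinv hval hcard hcov hphi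
      rcases Nat.eq_zero_or_pos n with rfl | hn
      · exact Dat.Cont.zero s (t + 1) hval
      by_cases hh : ∃ g, D.Heavy s g ∧ Val D.V a g
      · obtain ⟨g, hg, hvg⟩ := hh
        obtain ⟨i1, i2, i3⟩ := hI3 s (t + 1) g a hinv hg hvg
        have hval' : Val D.V a (D.cleanSt s g).ρ := val_union hval i2
        have hgc : 0 < g.card := Finset.card_pos.mpr hg.1
        refine Dat.Cont.clean s (t + 1) n g hval hg hvg ?_
        by_cases hgn : n ≤ g.card
        · rw [Nat.sub_eq_zero_of_le hgn]
          exact Dat.Cont.zero _ (t + 1) hval'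
        · refine ihn (n - g.card) (by omega) (D.cleanSt s g) i1 hval' (by rw [i3]; omega) ?_ ?_
          · intro σ
            exact cov_mono Finset.subset_union_left (hcov σ)
          · refine le_trans (mul_le_mul (Phi_mono D a s (D.cleanSt s g) true
              Finset.subset_union_left rfl) (Phi_mono D a s (D.cleanSt s g) false
              Finset.subset_union_left rfl) (Phi_nonneg D a _ _) (Phi_nonneg D a _ _)) hphi
      · have hM : 0 < D.M := by
          unfold Dat.M
          positivity
        have hPM : D.Psi s ≤ D.M := by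
          have h4 := hinv.psi
          have h5 : 0 ≤ ((t + 1 : ℕ) : ℝ) * (D.M / (2 * (Tp D.p : ℝ))) := by positivity
          linarith
        have hnh : ∀ l : Lf E Nd Sg, Val D.V a l.2 → ∀ g ⊆ l.2 \ s.ρ, ¬ D.Heavy s g := by
          intro l hvl g hg hgh
          exact hh ⟨g, hgh, fun f hf => hvl f (Finset.sdiff_subset (hg hf))⟩
        have hlen : ∀ σ, ∀ l ∈ s.F σ, Val D.V a l.2 → Fn (s.ρ ∪ l.2) → l.2.card ≤ Hp D.p := by
          intro σ l hl hvl hfl
          exact hL D s σ l hPM hl hfl (hnh l hvl)
        have hp : (0 : ℝ) < D.p := by exact_mod_cast D.hp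
        have hlow : ∀ σ, 0 < D.Phi a s σ := by
          intro σ
          obtain ⟨U, hU, hρU⟩ := h3 σ s.ρ hinv.fn hval (by omega)
          exact lt_of_lt_of_le (by positivity)
            (hW D a s σ (Ws σ) (Y σ) U (hcov σ) hU hρU (h1 σ U hU).1 (h1 σ U hU).2 (hlen σ))
        obtain ⟨σ, l, hl, hvl, hfl, hq1, hq2⟩ := hP D a s (hlow true) (hlow false)
        have hOK : D.MainOK s σ l := ⟨hl, hfl, hnh l hvl⟩
        have hlc := hlen (!σ) l hl hvl hfl
        refine Dat.Cont.main s t n σ l hval hOK ?_
        refine iht n (D.mainSt s σ l) (hI2 s t σ l hinv hOK) (val_union hval hvl) ?_ ?_ ?_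
        · have e1 : (D.mainSt s σ l).ρ.card ≤ s.ρ.card + l.2.card := Finset.card_union_le _ _
          have e2 : (t + 1) * Hp D.p = t * Hp D.p + Hp D.p := by ring
          rw [e2] at hcard
          omega
        · intro τ
          have e0 : (D.mainSt s σ l).F τ =
            (if τ = σ then D.stp σ (s.ρ ∪ l.2) l.1 (s.F σ) else s.F τ) := rfl
          have e1 : (D.mainSt s σ l).ρ = s.ρ ∪ l.2 := rfl
          rw [e0, e1]
          by_cases hτ : τ = σ
          · rw [if_pos hτ, hτ]
            exact hC D σ (Ws σ) (Y σ) s.ρ (s.ρ ∪ l.2) l.1 (s.F σ) (fun U hU => (h1 σ U hU).1)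
              (h2 σ) Finset.subset_union_left (hcov σ)
          · rw [if_neg hτ]
            exact cov_mono Finset.subset_union_left (hcov τ)
        · have e1 : D.Phi a (D.mainSt s σ l) true * D.Phi a (D.mainSt s σ l) false ≤
              5 / 8 * (D.Phi a s true * D.Phi a s false) := by
            have n1 := Phi_nonneg D a (D.mainSt s σ l) true
            have n2 := Phi_nonneg D a (D.mainSt s σ l) false
            have n3 := Phi_nonneg D a s true
            have n4 := Phi_nonneg D a s false
            cases σ with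
            | true =>
              have hq2' : D.Phi a (D.mainSt s true l) false ≤ D.Phi a s false := hq2
              calc D.Phi a (D.mainSt s true l) true * D.Phi a (D.mainSt s true l) false ≤
                  (5 / 8 * D.Phi a s true) * D.Phi a s false :=
                    mul_le_mul hq1 hq2' n2 (by positivity)
                _ = _ := by ring
            | false =>
              have hq2' : D.Phi a (D.mainSt s false l) true ≤ D.Phi a s true := hq2
              calc D.Phi a (D.mainSt s false l) true * D.Phi a (D.mainSt s false l) false ≤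
                  D.Phi a s true * (5 / 8 * D.Phi a s false) :=
                    mul_le_mul hq2' hq1 n2 (by positivity)
                _ = _ := by ring
          have e2 : (4 : ℝ) ^ D.p * (5 / 8) ^ Tp D.p * (8 / 5) ^ (t + 1) =
              8 / 5 * (4 ^ D.p * (5 / 8) ^ Tp D.p * (8 / 5) ^ t) := by
            rw [pow_succ (8 / 5 : ℝ) t]
            ring
          rw [e2] at hphi
          linarith

end Pool.ORB
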